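import Mathlib

set_option autoImplicit false

open Finset

namespace Pool.Agent.Results.MP_ee7763_co.Orlin

variable {V : Type} [Fintype V] [DecidableEq V]

/-- Every induced subgraph has chromatic number equal to its clique number. -/
def Perfect (G : SimpleGraph V) : Prop :=
  ∀ s : Set V, (G.induce s).chromaticNumber = (G.induce s).cliqueNum

def Equistable (G : SimpleGraph V) : Prop :=
  ∃ φ : V → ℝ, (∀ v, 0 < φ v) ∧
    ∀ S : Finset V, Maximal G.IsIndepSet (S : Set V) ↔ ∑ v ∈ S, φ v = 1

def GenPartition (G : SimpleGraph V) : Prop :=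
  ∃ (U : Type) (f : V → Set U), (∀ x, (f x).Nonempty) ∧
    (∀ x y, x ≠ y → (G.Adj x y ↔ (f x ∩ f y).Nonempty)) ∧
    ∀ S : Set V, Maximal G.IsIndepSet S → ∀ u : U, ∃! x, x ∈ S ∧ u ∈ f x

def cnt (l : Multiset (Finset V)) (y : V) : ℕ := l.countP (y ∈ ·)

omit [Fintype V] in
lemma cnt_cons (S : Finset V) (l : Multiset (Finset V)) (y : V) :
    cnt (S ::ₘ l) y = cnt l y + if y ∈ S then 1 else 0 := Multiset.countP_cons _ _ _

omit [Fintype V] in
lemma one {G : SimpleGraph V} {K S : Finset V} (hK : G.IsClique (K : Set V))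
    (hS : G.IsIndepSet (S : Set V)) : (∑ y ∈ K, if y ∈ S then 1 else 0) ≤ 1 := by
  rw [← card_filter, card_le_one]
  intro a ha b hb
  rw [mem_filter] at ha hb
  by_contra h
  exact hS ha.2 hb.2 h (hK ha.1 hb.1 h)

omit [Fintype V] in
lemma sum_le {G : SimpleGraph V} {K : Finset V} (hK : G.IsClique (K : Set V))
    (l : Multiset (Finset V)) (hl : ∀ S ∈ l, Maximal G.IsIndepSet (S : Set V)) :
    ∑ y ∈ K, cnt l y ≤ l.card := by
  induction l using Multiset.induction_on with
  | empty => simp [cnt]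
  | cons S l ih =>
    simp only [cnt_cons, sum_add_distrib, Multiset.card_cons]
    exact add_le_add (ih fun T hT => hl T (Multiset.mem_cons_of_mem hT))
      (one hK (hl S (Multiset.mem_cons_self _ _)).1)

lemma sum_phi {φ : V → ℝ} (l : Multiset (Finset V)) (hl : ∀ S ∈ l, ∑ v ∈ S, φ v = 1) :
    ∑ y, φ y * cnt l y = l.card := by
  induction l using Multiset.induction_on with
  | empty => simp [cnt]
  | cons S l ih =>
    simp only [cnt_cons, Multiset.card_cons, Nat.cast_add, mul_add, sum_add_distrib]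
    rw [ih fun T hT => hl T (Multiset.mem_cons_of_mem hT)]
    simp [hl S (Multiset.mem_cons_self _ _)]

lemma base {G : SimpleGraph V} (hG : Perfect G) (w : V → ℕ) (k : ℕ) (hw : ∀ y, w y ≤ 1)
    (h : ∀ K : Finset V, G.IsClique (K : Set V) → ∑ y ∈ K, w y ≤ k) :
    ∃ l : Multiset (Finset V), l.card = k ∧ (∀ S ∈ l, Maximal G.IsIndepSet (S : Set V)) ∧
      ∀ y, w y ≤ cnt l y := by
  classical
  have h1 : (G.induce {y | w y = 1}).cliqueNum ≤ k := by
    obtain ⟨t, ht⟩ := (G.induce {y | w y = 1}).exists_isNClique_cliqueNum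
    rw [← ht.card_eq]
    have h2 := h (t.map (Function.Embedding.subtype _)) (by
      intro a ha b hb hab
      simp only [coe_map, Set.mem_image, mem_coe, Function.Embedding.coe_subtype] at ha hb
      obtain ⟨a, ha, rfl⟩ := ha
      obtain ⟨b, hb, rfl⟩ := hb
      exact ht.isClique ha hb fun e => hab (congrArg _ e))
    rw [sum_map] at h2
    refine le_trans ?_ h2
    rw [card_eq_sum_ones]
    exact sum_le_sum fun a _ => a.2.ge
  obtain ⟨C⟩ : (G.induce {y | w y = 1}).Colorable k := by
    rw [← SimpleGraph.chromaticNumber_le_iff_colorable, hG]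
    exact_mod_cast h1
  have h3 : ∀ i : Fin k, ∃ S : Finset V, Maximal G.IsIndepSet (S : Set V) ∧
      ∀ y (hy : w y = 1), C ⟨y, hy⟩ = i → y ∈ S := by
    intro i
    have h4 : G.IsIndepSet {y | ∃ hy : w y = 1, C ⟨y, hy⟩ = i} := by
      rintro a ⟨ha, h5⟩ b ⟨hb, h6⟩ - hab
      exact C.valid (v := ⟨a, ha⟩) (w := ⟨b, hb⟩) hab (h5.trans h6.symm)
    obtain ⟨T, h5, h6⟩ := Finite.exists_le_maximal h4
    exact ⟨T.toFinset, by simpa using h6, fun y hy e => Set.mem_toFinset.2 (h5 ⟨hy, e⟩)⟩
  choose S h4 h5 using h3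
  refine ⟨univ.val.map S, by simp, by simpa using h4, fun y => ?_⟩
  rcases (hw y).lt_or_eq with h6 | h6
  · omega
  · rw [h6]
    exact Multiset.countP_pos.2 ⟨S (C ⟨y, h6⟩), by simp, h5 _ y h6 rfl⟩

lemma cover {G : SimpleGraph V} (hG : Perfect G) (n : ℕ) : ∀ (w : V → ℕ) (k : ℕ),
    ∑ y, w y ≤ n → (∀ K : Finset V, G.IsClique (K : Set V) → ∑ y ∈ K, w y ≤ k) →
    ∃ l : Multiset (Finset V), l.card = k ∧ (∀ S ∈ l, Maximal G.IsIndepSet (S : Set V)) ∧
      ∀ y, w y ≤ cnt l y := by
  induction n with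
  | zero =>
    intro w k h1 h
    exact base hG w k (fun y => (single_le_sum (f := w) (fun _ _ => Nat.zero_le _)
      (mem_univ y)).trans (by omega)) h
  | succ n ih =>
    intro w k h1 h
    by_cases hw : ∀ y, w y ≤ 1
    · exact base hG w k hw h
    push Not at hw
    obtain ⟨x, hx⟩ := hw
    have lt : ∀ (K : Finset V) (w' : V → ℕ), x ∈ K → (∀ y, w' y ≤ w y) → w' x < w x →
        ∑ y ∈ K, w' y < ∑ y ∈ K, w y :=
      fun K w' h2 h3 h4 => sum_lt_sum (fun y _ => h3 y) ⟨x, h2, h4⟩
    obtain ⟨l, h2, h3, h4⟩ := ih (fun y => w y - if y = x then 1 else 0) k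
      (Nat.lt_succ_iff.1 ((lt _ _ (mem_univ x) (fun y => Nat.sub_le _ _)
        (by simp only [if_true]; omega)).trans_le h1))
      (fun K hK => (sum_le_sum fun y _ => Nat.sub_le _ _).trans (h K hK))
    have h5 : 0 < cnt l x := by
      have := h4 x
      simp only [if_true] at this
      omega
    obtain ⟨S, h6, h7⟩ := Multiset.countP_pos.1 h5
    obtain ⟨l, rfl⟩ := Multiset.exists_cons_of_mem h6
    rw [Multiset.card_cons] at h2
    obtain ⟨l', h8, h9, h10⟩ := ih (fun y => w y - if y ∈ S then 1 else 0) l.card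
      (Nat.lt_succ_iff.1 ((lt _ _ (mem_univ x) (fun y => Nat.sub_le _ _)
        (by simp only [h7, if_true]; omega)).trans_le h1)) (by
      intro K hK
      by_cases h8 : x ∈ K
      · have := (lt K (fun y => w y - if y ∈ S then 1 else 0) h8 (fun y => Nat.sub_le _ _)
          (by simp only [h7, if_true]; omega)).trans_le (h K hK)
        omega
      · refine le_trans (sum_le_sum fun y hy => ?_)
          (sum_le hK l fun T hT => h3 T (Multiset.mem_cons_of_mem hT))
        have h9 := h4 y
        rw [cnt_cons, if_neg (fun e : y = x => h8 (e ▸ hy))] at h9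
        omega)
    refine ⟨S ::ₘ l', by rw [Multiset.card_cons]; omega, fun T hT => ?_, fun y => ?_⟩
    · rcases Multiset.mem_cons.1 hT with rfl | hT
      exacts [h3 _ h6, h9 T hT]
    · have := h10 y
      rw [cnt_cons]
      omega

/-- Orlin's conjecture holds for perfect graphs. -/
theorem result (V : Type) [Fintype V] [DecidableEq V] (G : SimpleGraph V) (hG : Perfect G)
    (hE : Equistable G) : GenPartition G := by
  classical
  obtain ⟨φ, hφ, hS⟩ := hE
  obtain ⟨m, hm⟩ : ∃ m : Multiset (Finset V), ∀ S, S ∈ m ↔ Maximal G.IsIndepSet (S : Set V) :=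
    ⟨(univ.filter fun S : Finset V => Maximal G.IsIndepSet (S : Set V)).val, by simp⟩
  have hm1 := fun S => (hm S).1
  have pm := sum_phi m fun S h => (hS S).1 (hm1 S h)
  have A : ∀ a, ∃ K : Finset V, (G.IsClique (K : Set V) ∧ ∑ y ∈ K, cnt m y = m.card) ∧ a ∈ K := by
    intro a
    by_contra h
    push Not at h
    obtain ⟨l, h1, h2, h3⟩ := cover hG _ (fun y => cnt m y + if y = a then 1 else 0) m.card le_rfl
      (by
        intro K hK
        have h1 := sum_le hK m hm1
        have h2 := h K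
        rw [sum_add_distrib, sum_ite_eq']
        split_ifs with h3
        · have : ∑ y ∈ K, cnt m y ≠ m.card := fun e => h2 ⟨hK, e⟩ h3
          omega
        · omega)
    have h4 := sum_phi l fun S h => (hS S).1 (h2 S h)
    have h5 : ∑ y, φ y * cnt m y < ∑ y, φ y * cnt l y := by
      refine sum_lt_sum (fun y _ => mul_le_mul_of_nonneg_left ?_ (hφ y).le)
        ⟨a, mem_univ _, mul_lt_mul_of_pos_left ?_ (hφ a)⟩
      · exact_mod_cast le_trans (Nat.le_add_right _ _) (h3 y)
      · have := h3 a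
        simp only [if_true] at this
        exact_mod_cast this
    rw [pm, h4, h1] at h5
    exact lt_irrefl _ h5
  have B : ∀ u v, G.Adj u v → ∃ K : Finset V,
      (G.IsClique (K : Set V) ∧ ∑ y ∈ K, cnt m y = m.card) ∧ u ∈ K ∧ v ∈ K := by
    intro u v huv
    by_contra h
    push Not at h
    obtain ⟨l, h1, h2, h3⟩ := cover hG _
      (fun y => cnt m y + (if y = u then 1 else 0) + if y = v then 1 else 0) (m.card + 1) le_rfl
      (by
        intro K hK
        have h1 := sum_le hK m hm1
        have h2 := h K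
        rw [sum_add_distrib, sum_add_distrib, sum_ite_eq', sum_ite_eq']
        split_ifs with h3 h4
        · have : ∑ y ∈ K, cnt m y ≠ m.card := fun e => h2 ⟨hK, e⟩ h3 h4
          omega
        all_goals omega)
    have h4 := sum_phi l fun S h => (hS S).1 (h2 S h)
    have h5 : ∀ y, cnt m y ≤ cnt l y := fun y => by
      have := h3 y
      omega
    have h6 : ∀ y, cnt l y ≤ cnt m y + 1 := by
      intro y
      obtain ⟨K, ⟨h6, h7⟩, h8⟩ := A y
      have h9 := sum_le h6 l h2
      rw [← add_sum_erase _ _ h8] at h7 h9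
      have := sum_le_sum fun z (_ : z ∈ K.erase y) => h5 z
      omega
    have h7 : ∑ y ∈ univ.filter fun y => cnt m y < cnt l y, φ y = 1 := by
      have : ∑ y, φ y * cnt l y = ∑ y, φ y * cnt m y +
          ∑ y ∈ univ.filter fun y => cnt m y < cnt l y, φ y := by
        rw [sum_filter, ← sum_add_distrib]
        refine sum_congr rfl fun y _ => ?_
        split_ifs with h7
        · rw [show cnt l y = cnt m y + 1 by have := h6 y; omega]
          push_cast
          ring
        · rw [show cnt l y = cnt m y by have := h5 y; omega, add_zero]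
      rw [h4, pm, h1] at this
      push_cast at this
      linarith
    refine ((hS _).2 h7).1 (x := u) (y := v) ?_ ?_ huv.ne huv
    · have := h3 u
      simp only [if_true] at this
      simp only [coe_filter, mem_univ, true_and, Set.mem_ofPred_eq]
      omega
    · have := h3 v
      simp only [if_true] at this
      simp only [coe_filter, mem_univ, true_and, Set.mem_ofPred_eq]
      omega
  refine ⟨{K : Finset V // G.IsClique (K : Set V) ∧ ∑ y ∈ K, cnt m y = m.card},
    fun x => {K | x ∈ K.1}, fun x => ?_, fun x y hxy => ⟨fun h => ?_, ?_⟩, ?_⟩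
  · obtain ⟨K, h1, h2⟩ := A x
    exact ⟨⟨K, h1⟩, h2⟩
  · obtain ⟨K, h1, h2⟩ := B x y h
    exact ⟨⟨K, h1⟩, h2⟩
  · rintro ⟨K, h1, h2⟩
    exact K.2.1 h1 h2 hxy
  · rintro S h1 ⟨K, h2, h3⟩
    have h4 : S.toFinset ∈ m := (hm _).2 (by simpa using h1)
    obtain ⟨l, rfl⟩ := Multiset.exists_cons_of_mem h4
    have h5 := sum_le h2 l fun T hT => hm1 T (Multiset.mem_cons_of_mem hT)
    simp only [cnt_cons, sum_add_distrib, Multiset.card_cons] at h3
    have h6 : 0 < #(K.filter (· ∈ S.toFinset)) := by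
      rw [card_filter]
      omega
    obtain ⟨x, h7⟩ := card_pos.1 h6
    rw [mem_filter, Set.mem_toFinset] at h7
    refine ⟨x, ⟨h7.2, h7.1⟩, fun y hy => ?_⟩
    by_contra h
    exact h1.1 hy.1 h7.2 h (h2 hy.2 h7.1 h)

end Pool.Agent.Results.MP_ee7763_co.Orlin
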